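import Mathlib
import Pool.Agent.Lib.MP_d1ccd0_al.Defs
import Pool.Agent.Lib.MP_d1ccd0_al.Example

/-!
Negative answer to Q1 of MP_d1ccd0_al.  Witness: `F` the free abelian monoid on `x, y, z` and
`H = {1} ∪ (z^2, x^2 z, y^2 z, x y)`.
-/

namespace Pool.Agent.Results.MP_d1ccd0_al.CmonInfinite

open Pool.Agent.Lib.MP_d1ccd0_al

theorem result :
    ∃ (F : Type) (_ : CancelCommMonoid F) (H : Submonoid F),
      IsFactorial F ∧ Monoid.FG (Associates F) ∧ IsConductor H ∧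
        cEq H = ⊤ ∧ cMon H = ⊤ :=
  ⟨F3, inferInstance, Hex, factorial_F3, fg_F3, conductor, cEq_top, cMon_top⟩

end Pool.Agent.Results.MP_d1ccd0_al.CmonInfinite
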