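import Mathlib
import Pool.Agent.Lib.MP_d1ccd0_al.Defs
import Pool.Agent.Lib.MP_d1ccd0_al.RankTwoD

/-!
Q1 of MP_d1ccd0_al holds when the factorial monoid has at most two primes.
-/

set_option autoImplicit false

namespace Pool.Agent.Results.MP_d1ccd0_al.TwoPrimes

open Pool.Agent.Lib.MP_d1ccd0_al

theorem result (F : Type) [CancelCommMonoid F] (P : Type) [Finite P] (hP : Nat.card P ≤ 2)
    (hF : Nonempty (F ≃* Fˣ × Multiplicative (P →₀ ℕ))) (H : Submonoid F) (hH : IsConductor H) :
    cMon H < ⊤ := by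
  obtain ⟨e⟩ := hF
  exact RankTwo.finite_of_card H hH hP e

end Pool.Agent.Results.MP_d1ccd0_al.TwoPrimes
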